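import Pool.Agent.P8H18.RR.Stm
import Pool.Agent.W301.SS.Vino

set_option autoImplicit false

/-! # Package EXP of project RR (helper75) -/

namespace Pool.Agent.P8H75.RRP

open Pool.Agent.P8H18.RR Finset

theorem SL_eq (N : ℕ) (α : ℝ) : SL N α = Pool.Agent.W301.SS.SL N α := rfl

theorem poly_exp (a : ℝ) (ha : 0 < a) : ∃ K : ℝ, 0 < K ∧ ∀ L : ℝ, 0 ≤ L →
    L ^ 7 ≤ K * Real.exp (a * √L) := by
  refine ⟨(Nat.factorial 14 : ℝ) / a ^ 14, by positivity, fun L hL => ?_⟩
  have h1 := Real.pow_div_factorial_le_exp (a * √L) (by positivity) 14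
  have h2 : (√L) ^ 14 = L ^ 7 := by
    have : (√L) ^ 14 = ((√L) ^ 2) ^ 7 := by ring
    rw [this, Real.sq_sqrt hL]
  rw [mul_pow, h2, div_le_iff₀ (by positivity)] at h1
  rw [div_mul_eq_mul_div, le_div_iff₀ (by positivity)]
  linarith

theorem log_ten_lo : 2 ≤ Real.log 10 := by
  rw [Real.le_log_iff_exp_le (by norm_num)]
  have h1 : Real.exp 2 = Real.exp 1 ^ 2 := by rw [← Real.exp_nat_mul]; norm_num
  have h2 := Real.exp_one_lt_d9
  have h3 := Real.exp_pos 1
  rw [h1]
  nlinarith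

theorem log_ten_hi : Real.log 10 ≤ 9 := by
  have := Real.log_le_sub_one_of_pos (show (0 : ℝ) < 10 by norm_num)
  linarith

/-- minor arcs, from Vinogradov -/
theorem minor (c1 : ℝ) (hc1 : 0 < c1) (hc1' : c1 ≤ 1 / 2) : ∃ C : ℝ, 0 < C ∧ ∀ L : ℕ, 1 ≤ L →
    ∀ q : ℕ, Real.exp (c1 * √(L : ℝ)) < q →
    (q : ℝ) ≤ 10 ^ (2 * L + 1) / (Real.exp (c1 * √(L : ℝ)) / 2) →
    ∀ a : ℤ, IsCoprime a (q : ℤ) → ∀ α : ℝ, |α - a / q| ≤ 1 / (q : ℝ) ^ 2 →
    ∀ x : ℕ, 1 ≤ x → x ≤ 10 ^ (2 * L + 1) →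
      ‖SL x α‖ ≤ C * 10 ^ (2 * L + 1) * Real.exp (-(c1 / 4 * √(L : ℝ))) := by
  obtain ⟨C, hC, hv⟩ := Pool.Agent.W301.SS.vino
  obtain ⟨K, hK, hp⟩ := poly_exp (c1 / 4) (by positivity)
  refine ⟨C * 28 ^ 7 * K * 4, by positivity, ?_⟩
  intro L hL q hq1 hq2 a hcop α hα x hx hxN
  have hL1 : (1 : ℝ) ≤ L := by exact_mod_cast hL
  have hL0 : (0 : ℝ) ≤ L := by linarith
  set s : ℝ := √(L : ℝ) with hs
  have hs1 : 1 ≤ s := by rw [hs]; exact Real.one_le_sqrt.2 hL1
  have hsL : s ≤ L := by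
    have : s * s = L := Real.mul_self_sqrt hL0
    nlinarith
  set E : ℝ := Real.exp (c1 * s) with hE
  have hE0 : 0 < E := Real.exp_pos _
  set N : ℝ := 10 ^ (2 * L + 1) with hN
  have hN0 : 0 < N := by positivity
  have hN1 : 1 ≤ N := one_le_pow₀ (by norm_num)
  have hq0 : (0 : ℝ) < q := hE0.trans hq1
  have hqn : 1 ≤ q := by
    have : 0 < q := by exact_mod_cast hq0
    omega
  have hx1 : (1 : ℝ) ≤ x := by exact_mod_cast hx
  have hxN' : (x : ℝ) ≤ N := by rw [hN]; exact_mod_cast hxN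
  have h1 := hv x q hx hqn a hcop α hα
  have hlog : Real.log N = (2 * L + 1) * Real.log 10 := by
    rw [hN, Real.log_pow]; push_cast; ring
  have hlogN : 1 + Real.log N ≤ 28 * L := by
    rw [hlog]
    have := log_ten_hi
    nlinarith
  have hlogx : Real.log x ≤ Real.log N := Real.log_le_log (by linarith) hxN'
  have hlogx0 : 0 ≤ Real.log x := Real.log_nonneg hx1
  have h2 : (1 + Real.log x) ^ 7 ≤ (28 * (L : ℝ)) ^ 7 :=
    pow_le_pow_left₀ (by linarith) (by linarith) 7
  -- the three terms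
  set w : ℝ := Real.exp (-(c1 / 2 * s)) with hw
  have hw0 : 0 < w := Real.exp_pos _
  have hsE : √E = Real.exp (c1 / 2 * s) := by
    have : E = Real.exp (c1 / 2 * s) ^ 2 := by
      rw [hE, ← Real.exp_nat_mul]
      congr 1; push_cast; ring
    rw [this, Real.sqrt_sq (Real.exp_pos _).le]
  have hwE : w = 1 / √E := by
    rw [hsE, hw, Real.exp_neg, one_div]
  have hsE0 : 0 < √E := Real.sqrt_pos.2 hE0
  have t1 : N / √q ≤ N * w := by
    rw [hwE, mul_one_div]
    exact div_le_div_of_nonneg_left hN0.le hsE0 (Real.sqrt_le_sqrt hq1.le)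
  have t3 : √(N * q) ≤ 2 * (N * w) := by
    have : N * q ≤ (2 * (N * w)) ^ 2 := by
      have e1 : (2 * (N * w)) ^ 2 = 4 * N ^ 2 / E := by
        rw [hwE]
        have := Real.sq_sqrt hE0.le
        field_simp
        rw [this]
        ring
      rw [e1]
      have e2 : N / (E / 2) = 2 * N / E := by field_simp
      rw [e2] at hq2
      calc N * q ≤ N * (2 * N / E) := mul_le_mul_of_nonneg_left hq2 hN0.le
        _ = 2 * N ^ 2 / E := by ring
        _ ≤ 4 * N ^ 2 / E := by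
          apply div_le_div_of_nonneg_right _ hE0.le
          nlinarith [sq_nonneg N]
    exact Real.sqrt_le_iff.2 ⟨by positivity, this⟩
  have t2 : N ^ (4 / 5 : ℝ) ≤ N * w := by
    have e1 : N ^ (4 / 5 : ℝ) = N * Real.exp (-(1 / 5) * Real.log N) := by
      rw [Real.rpow_def_of_pos hN0]
      nth_rewrite 2 [← Real.exp_log hN0]
      rw [← Real.exp_add]
      congr 1; ring
    rw [e1, hw]
    refine mul_le_mul_of_nonneg_left (Real.exp_le_exp.2 ?_) hN0.le
    rw [hlog]
    have := log_ten_lo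
    nlinarith
  have t : Pool.Agent.W301.SS.VB x q ≤ 4 * (N * w) := by
    refine (Pool.Agent.W301.SS.VB_mono (by linarith) hxN' hq0).trans ?_
    unfold Pool.Agent.W301.SS.VB
    linarith
  have hVB0 : 0 ≤ Pool.Agent.W301.SS.VB x q := by
    unfold Pool.Agent.W301.SS.VB; positivity
  have h3 := hp L hL0
  rw [SL_eq]
  calc ‖Pool.Agent.W301.SS.SL x α‖ ≤ C * (1 + Real.log x) ^ 7 * Pool.Agent.W301.SS.VB x q := h1
    _ ≤ C * (28 * (L : ℝ)) ^ 7 * (4 * (N * w)) := by
        refine mul_le_mul (mul_le_mul_of_nonneg_left h2 hC.le) t hVB0 (by positivity)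
    _ = C * 28 ^ 7 * 4 * (N * w) * (L : ℝ) ^ 7 := by ring
    _ ≤ C * 28 ^ 7 * 4 * (N * w) * (K * Real.exp (c1 / 4 * s)) :=
        mul_le_mul_of_nonneg_left h3 (by positivity)
    _ = C * 28 ^ 7 * K * 4 * N * (w * Real.exp (c1 / 4 * s)) := by ring
    _ = C * 28 ^ 7 * K * 4 * N * Real.exp (-(c1 / 4 * s)) := by
        rw [hw, ← Real.exp_add]
        congr 2; ring

theorem num (s : ℝ) (h : 4 ≤ s) :
    (1 / 32 * s + 1) * (1 / 8 * s + 3) + 1 / 8 * s + 4 ≤ s * s := by
  nlinarith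

/-- EXP -/
theorem expo : S_EXPA := by
  intro hM hG
  obtain ⟨c0, C0, hc0, hC0, hmaj⟩ := hM
  set c1 : ℝ := min c0 (1 / 8) with hc1
  have hc1p : 0 < c1 := lt_min hc0 (by norm_num)
  have hc10 : c1 ≤ c0 := min_le_left _ _
  have hc18 : c1 ≤ 1 / 8 := min_le_right _ _
  obtain ⟨C1, hC1, hmin⟩ := minor c1 hc1p (by linarith)
  refine ⟨c1 / 4, C0 + C1, by positivity, by positivity, 16, ?_⟩
  intro L hL U h hU hcard hh hndiv hex x hx
  have hL16 : (16 : ℝ) ≤ L := by exact_mod_cast hL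
  have hL0 : (0 : ℝ) ≤ L := by linarith
  set s : ℝ := √(L : ℝ) with hs
  have hss : s * s = L := Real.mul_self_sqrt hL0
  have hs0 : 0 ≤ s := Real.sqrt_nonneg _
  have hs4 : 4 ≤ s := by
    rw [hs]
    exact Real.le_sqrt_of_sq_le (by linarith)
  set N : ℝ := 10 ^ (2 * L + 1) with hN
  have hN0 : 0 < N := by positivity
  set w : ℝ := Real.exp (-(c1 / 4 * s)) with hw
  have hw0 : 0 < w := Real.exp_pos _
  rcases Nat.eq_zero_or_pos x with hx0 | hx0
  · have : SL x (fr U h) = 0 := by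
      rw [hx0]; unfold SL; simp
    rw [this, norm_zero]
    positivity
  set E : ℝ := Real.exp (c1 * s) with hE
  have hE1 : 1 ≤ E := Real.one_le_exp (by positivity)
  have hE0 : 0 < E := by linarith
  set Q : ℕ := ⌊E⌋₊ with hQ
  have hQ1 : 1 ≤ Q := Nat.le_floor (by exact_mod_cast hE1)
  have hQE : (Q : ℝ) ≤ E := Nat.floor_le hE0.le
  have hEQ : E < Q + 1 := Nat.lt_floor_add_one E
  have hQ1' : (1 : ℝ) ≤ Q := by exact_mod_cast hQ1
  have hEQ2 : E / 2 ≤ Q := by linarith
  set n : ℕ := 10 ^ (2 * L + 1) / Q with hn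
  have hEN : E ≤ N := by
    have h1 : N = Real.exp ((2 * L + 1) * Real.log 10) := by
      have : (2 * (L : ℝ) + 1) * Real.log 10 = ((2 * L + 1 : ℕ) : ℝ) * Real.log 10 := by
        push_cast; ring
      rw [this, Real.exp_nat_mul, Real.exp_log (by norm_num)]
    rw [h1, hE]
    refine Real.exp_le_exp.2 ?_
    have := log_ten_lo
    nlinarith
  have hn1 : 0 < n := by
    refine Nat.div_pos ?_ (by omega)
    have : (Q : ℝ) ≤ ((10 ^ (2 * L + 1) : ℕ) : ℝ) := by push_cast; linarith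
    exact_mod_cast this
  have hnN : (n : ℝ) ≤ N / Q := by
    rw [hn, hN]
    refine Nat.cast_div_le.trans ?_
    push_cast
    exact le_rfl
  have hnQ : 1 / ((n : ℝ) + 1) ≤ Q / N := by
    have h1 : 10 ^ (2 * L + 1) < Q * (n + 1) := Nat.lt_mul_div_succ _ (by omega)
    have h2 : N < Q * ((n : ℝ) + 1) := by
      rw [hN]; exact_mod_cast h1
    rw [div_le_div_iff₀ (by positivity) hN0]
    linarith
  obtain ⟨r, hr1, hr2⟩ := Real.exists_rat_abs_sub_le_and_den_le (fr U h) hn1
  set q : ℕ := r.den with hqd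
  have hq1 : 1 ≤ q := r.pos
  have hq1' : (1 : ℝ) ≤ q := by exact_mod_cast hq1
  have hcop : IsCoprime r.num (q : ℤ) := Rat.isCoprime_num_den r
  have hrr : (r : ℝ) = (r.num : ℝ) / q := Rat.cast_def r
  rw [hrr] at hr1
  have hr3 : |fr U h - (r.num : ℝ) / q| ≤ Q / N := by
    refine hr1.trans (le_trans ?_ hnQ)
    refine one_div_le_one_div_of_le (by positivity) ?_
    nlinarith [Nat.cast_nonneg (α := ℝ) n]
  rcases le_or_gt q Q with hqQ | hqQ
  · -- major arcs
    have hqQ' : (q : ℝ) ≤ Q := by exact_mod_cast hqQ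
    set H : ℕ := ⌊Real.exp (c1 / 4 * s)⌋₊ with hH
    have hH1 : 1 ≤ H := by
      refine Nat.le_floor ?_
      have : 1 ≤ Real.exp (c1 / 4 * s) := Real.one_le_exp (by positivity)
      exact_mod_cast this
    have hHE : (H : ℝ) ≤ Real.exp (c1 / 4 * s) := Nat.floor_le (Real.exp_pos _).le
    set G : ℕ := ⌈c1 * s⌉₊ + 1 with hGd
    have hG1 : c1 * s + 1 ≤ G := by
      rw [hGd]; push_cast
      have := Nat.le_ceil (c1 * s)
      linarith
    have hG2 : (G : ℝ) ≤ c1 * s + 2 := by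
      rw [hGd]; push_cast
      have := (Nat.ceil_lt_add_one (show 0 ≤ c1 * s by positivity)).le
      linarith
    have hpow : 4 * E ^ 2 ≤ (10 : ℝ) ^ G := by
      have h1 : (10 : ℝ) ^ G = Real.exp (G * Real.log 10) := by
        rw [Real.exp_nat_mul, Real.exp_log (by norm_num)]
      have h2 : (4 : ℝ) ≤ Real.exp 2 := by
        have h1 : Real.exp 2 = Real.exp 1 ^ 2 := by rw [← Real.exp_nat_mul]; norm_num
        have h2 := Real.exp_one_gt_d9
        rw [h1]
        nlinarith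
      have h3 : 4 * E ^ 2 ≤ Real.exp 2 * Real.exp (2 * (c1 * s)) := by
        have : E ^ 2 = Real.exp (2 * (c1 * s)) := by
          rw [hE, ← Real.exp_nat_mul]; norm_num
        rw [this]
        exact mul_le_mul_of_nonneg_right h2 (Real.exp_pos _).le
      refine h3.trans ?_
      rw [← Real.exp_add, h1]
      refine Real.exp_le_exp.2 ?_
      have h4 : (G : ℝ) * 2 ≤ G * Real.log 10 :=
        mul_le_mul_of_nonneg_left log_ten_lo (Nat.cast_nonneg _)
      linarith
    have hHE2 : (H : ℝ) ≤ E := by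
      refine hHE.trans (Real.exp_le_exp.2 ?_)
      have : 0 ≤ c1 * s := by positivity
      linarith
    have hg1 : 4 * H * Q ≤ 10 ^ G := by
      have : 4 * (H : ℝ) * Q ≤ (10 : ℝ) ^ G := by
        refine le_trans ?_ hpow
        have h1 : (H : ℝ) * Q ≤ E * E :=
          mul_le_mul hHE2 hQE (by positivity) hE0.le
        have e1 : 4 * (H : ℝ) * Q = 4 * (H * Q) := by ring
        have e2 : 4 * E ^ 2 = 4 * (E * E) := by ring
        rw [e1, e2]
        linarith
      exact_mod_cast this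
    have hg2 : 4 * Q ^ 2 ≤ 10 ^ G := by
      have : 4 * (Q : ℝ) ^ 2 ≤ (10 : ℝ) ^ G := by
        refine le_trans ?_ hpow
        have h1 : (Q : ℝ) ^ 2 ≤ E ^ 2 := pow_le_pow_left₀ (by positivity) hQE 2
        linarith
      exact_mod_cast this
    have hg3 : (U.card + 1) * (G + 1) + G + 2 ≤ L := by
      have hlogL : 1 ≤ Real.log L := by
        rw [Real.le_log_iff_exp_le (by linarith)]
        have := Real.exp_one_lt_d9
        linarith
      have hc : (U.card : ℝ) ≤ c1 / 4 * s := by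
        refine hcard.trans ?_
        exact div_le_self (by positivity) hlogL
      have : ((U.card : ℝ) + 1) * (G + 1) + G + 2 ≤ L := by
        have h1 : ((U.card : ℝ) + 1) * (G + 1) ≤ (c1 / 4 * s + 1) * (c1 * s + 3) :=
          mul_le_mul (by linarith) (by linarith) (by positivity) (by positivity)
        have h2 : c1 * s ≤ 1 / 8 * s := mul_le_mul_of_nonneg_right hc18 hs0
        have h3 : (c1 / 4 * s + 1) * (c1 * s + 3) ≤ (1 / 32 * s + 1) * (1 / 8 * s + 3) :=
          mul_le_mul (by linarith) (by linarith) (by positivity) (by positivity)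
        have h4 := num s hs4
        rw [← hss]
        linarith
      exact_mod_cast this
    have hg4 : ∀ i ∈ U, |h i| ≤ (H : ℤ) := by
      intro i hi
      have h1 := hh i hi
      have h2 : ((h i).natAbs : ℝ) ≤ Real.exp (c1 / 4 * s) := by
        rw [Nat.cast_natAbs]
        push_cast
        exact h1
      have h3 : (h i).natAbs ≤ H := Nat.le_floor h2
      rw [Int.abs_eq_natAbs]
      exact_mod_cast h3
    obtain ⟨d1, d2⟩ := hG L G G H Q U h hH1 hQ1 hU hg4 hndiv hex hg3 hg1 hg2 r.num q hq1 hqQ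
      hcop hr3
    have hsD : s ≤ √((2 * L + 1 : ℕ) : ℝ) := by
      rw [hs]
      refine Real.sqrt_le_sqrt ?_
      push_cast
      linarith
    have hED : E ≤ Real.exp (c0 * √((2 * L + 1 : ℕ) : ℝ)) := by
      refine Real.exp_le_exp.2 ?_
      exact mul_le_mul hc10 hsD hs0 hc0.le
    have hm := hmaj (2 * L + 1) (by omega) q r.num hq1 d1 d2 hcop (by linarith)
      (fr U h - (r.num : ℝ) / q) (by
        refine hr3.trans ?_
        exact div_le_div_of_nonneg_right (hQE.trans hED) hN0.le) x hx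
    have e1 : (r.num : ℝ) / q + (fr U h - (r.num : ℝ) / q) = fr U h := by ring
    rw [e1] at hm
    refine hm.trans ?_
    refine mul_le_mul ?_ (Real.exp_le_exp.2 ?_) (Real.exp_pos _).le (by positivity)
    · exact mul_le_mul_of_nonneg_right (by linarith) (by positivity)
    · have h1 : c1 * s ≤ c0 * √((2 * L + 1 : ℕ) : ℝ) := mul_le_mul hc10 hsD hs0 hc0.le
      have h2 : 0 ≤ c1 * s := by positivity
      linarith
  · -- minor arcs
    have hqQ' : E < q := by
      have : ((Q + 1 : ℕ) : ℝ) ≤ q := by exact_mod_cast hqQ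
      push_cast at this
      linarith
    have hqn : (q : ℝ) ≤ n := by exact_mod_cast hr2
    have hq2 : (q : ℝ) ≤ N / (E / 2) := by
      refine hqn.trans (hnN.trans ?_)
      exact div_le_div_of_nonneg_left hN0.le (by positivity) hEQ2
    have hα : |fr U h - (r.num : ℝ) / q| ≤ 1 / (q : ℝ) ^ 2 := by
      refine hr1.trans (one_div_le_one_div_of_le (by positivity) ?_)
      nlinarith
    have hm := hmin L (by omega) q hqQ' hq2 r.num hcop (fr U h) hα x hx0 hx
    refine hm.trans ?_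
    refine mul_le_mul_of_nonneg_right ?_ hw0.le
    exact mul_le_mul_of_nonneg_right (by linarith) hN0.le

end Pool.Agent.P8H75.RRP
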